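import Mathlib

/-!
# MP_c1651f_co: optimal strong parity edge-colourings of path powers

The Gray-code colouring is an optimal strong parity edge-colouring of every power `P_n^ℓ` of a
path, so `p̂(P_n^ℓ) = ∑_{k = 1}^{⌈lg n⌉} min {ℓ, 2^(k-1)}`.
-/

set_option autoImplicit false

namespace Pool.Agent.Results.MP_c1651f_co.PathPowerSpec

open Finset

universe u

/-! ### Definitions -/

/-- `c` is a strong parity edge-colouring (spec) of `G`: no walk of `G` with distinct end vertices
uses every colour an even number of times. (Only the values of `c` on edges of `G` matter.) -/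
def IsSpec {V : Type*} {α : Type*} [DecidableEq α] (G : SimpleGraph V) (c : Sym2 V → α) : Prop :=
  ∀ (x y : V) (p : G.Walk x y), x ≠ y → ¬ ∀ a : α, Even ((p.edges.map c).count a)

/-- The number of colours used by `c` on the edges of `G`. -/
noncomputable def numColours {V : Type*} {α : Type*} (G : SimpleGraph V) (c : Sym2 V → α) : ℕ :=
  (c '' G.edgeSet).ncard

/-- `p̂(G)`: the least number of colours in a spec of `G`. -/
noncomputable def specNumber {V : Type*} (G : SimpleGraph V) : ℕ :=
  sInf {m | ∃ c : Sym2 V → ℕ, IsSpec G c ∧ numColours G c = m}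

/-- The power `P_n^ℓ` of the path: `v_i v_j` is an edge iff `1 ≤ |i - j| ≤ ℓ`. -/
def pathPower (n ℓ : ℕ) : SimpleGraph (Fin n) where
  Adj i j := 1 ≤ |(i : ℤ) - (j : ℤ)| ∧ |(i : ℤ) - (j : ℤ)| ≤ ℓ
  symm := ⟨fun i j h => by rwa [abs_sub_comm (j : ℤ) (i : ℤ)]⟩
  loopless := ⟨fun i h => by simp at h⟩

/-- The basis vector `e_{c_t}` with `c_t = 1 + ν₂(t)`. -/
noncomputable def gen (t : ℕ) : ℕ →₀ ZMod 2 := Finsupp.single (1 + padicValNat 2 t) 1

/-- The Gray-code colouring `φ(v_i v_j) = ∑_{t = i + 1}^{j} e_{c_t}` for `i < j`. -/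
noncomputable def phi (n : ℕ) : Sym2 (Fin n) → (ℕ →₀ ZMod 2) :=
  Sym2.lift ⟨fun i j => ∑ t ∈ Finset.Ioc (min (i : ℕ) (j : ℕ)) (max (i : ℕ) (j : ℕ)), gen t,
    fun i j => by simp only [min_comm, max_comm]⟩

/-! ### The core: differences in groups of exponent two -/

section Core

/-- The sums `f i + f j` with `|i - j| ≤ ℓ`, zero included. -/
noncomputable def D0 {M : Type*} [AddCommGroup M] (ℓ n : ℕ) (f : ℕ → M) : Finset M := by
  classical
  exact ((range n ×ˢ range n).filter (fun p => p.1 ≤ p.2 ∧ p.2 ≤ p.1 + ℓ)).image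
    (fun p => f p.1 + f p.2)

/-- the values of `f` -/
noncomputable def vals {M : Type*} (n : ℕ) (f : ℕ → M) : Finset M := by
  classical
  exact (range n).image f

def tau (ℓ L : ℕ) : ℕ := 1 + ∑ k ∈ range L, min ℓ (2 ^ k)

theorem tau_le (ℓ L : ℕ) : tau ℓ L ≤ 2 ^ L := by
  unfold tau
  induction L with
  | zero => simp
  | succ L ih =>
    rw [sum_range_succ, pow_succ]
    have := min_le_right ℓ (2 ^ L)
    omega

theorem tau_succ (ℓ L : ℕ) : tau ℓ (L + 1) = tau ℓ L + min ℓ (2 ^ L) := by
  unfold tau
  rw [sum_range_succ]; ring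

theorem mem_D0 {M : Type*} [AddCommGroup M] {ℓ n : ℕ} {f : ℕ → M} {x : M} :
    x ∈ D0 ℓ n f ↔ ∃ i j, i ≤ j ∧ j < n ∧ j ≤ i + ℓ ∧ f i + f j = x := by
  classical
  unfold D0
  simp only [mem_image, mem_filter, mem_product, mem_range, Prod.exists]
  constructor
  · rintro ⟨i, j, ⟨⟨_, hj⟩, hij, hl⟩, he⟩
    exact ⟨i, j, hij, hj, hl, he⟩
  · rintro ⟨i, j, hij, hj, hl, he⟩
    exact ⟨i, j, ⟨⟨by omega, hj⟩, hij, hl⟩, he⟩

theorem mem_vals {M : Type*} {n : ℕ} {f : ℕ → M} {x : M} :
    x ∈ vals n f ↔ ∃ i, i < n ∧ f i = x := by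
  classical
  unfold vals
  simp [mem_image]

variable {M : Type u} [AddCommGroup M] [Module (ZMod 2) M]

theorem add_self (x : M) : x + x = 0 := ZModModule.add_self x

theorem zmod2 : ∀ a : ZMod 2, a = 0 ∨ a = 1 := by decide

theorem mk_eq_iff (c x y : M) :
    (Submodule.Quotient.mk x : M ⧸ Submodule.span (ZMod 2) {c}) = Submodule.Quotient.mk y ↔
      x = y ∨ x + y = c := by
  rw [Submodule.Quotient.eq, Submodule.mem_span_singleton, ZModModule.sub_eq_add]
  constructor
  · rintro ⟨a, ha⟩
    have h2 : a = 0 ∨ a = 1 := zmod2 a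
    rcases h2 with rfl | rfl
    · left
      rw [zero_smul] at ha
      have := congrArg (· + y) ha
      simp only [zero_add] at this
      rw [add_assoc, add_self, add_zero] at this
      exact this.symm
    · right
      rw [one_smul] at ha
      exact ha.symm
  · rintro (rfl | h)
    · exact ⟨0, by rw [zero_smul, add_self]⟩
    · exact ⟨1, by rw [one_smul, h]⟩

/-- the projection modulo `c` -/
def pr (c : M) : M → M ⧸ Submodule.span (ZMod 2) {c} := Submodule.Quotient.mk

theorem pr_add (c x y : M) : pr c (x + y) = pr c x + pr c y := rfl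

theorem pr_eq_iff (c x y : M) : pr c x = pr c y ↔ x = y ∨ x + y = c := mk_eq_iff c x y

theorem card_pr_lt [Finite M] {c : M} (hc : c ≠ 0) :
    Nat.card (M ⧸ Submodule.span (ZMod 2) {c}) < Nat.card M := by
  have hs : Function.Surjective (pr c) := Submodule.Quotient.mk_surjective _
  have hi : ¬ Function.Injective (pr c) := by
    intro h
    have : pr c 0 = pr c c := by rw [pr_eq_iff]; right; rw [zero_add]
    exact hc (h this).symm
  have : Finite (M ⧸ Submodule.span (ZMod 2) {c}) := Finite.of_surjective _ hs
  have := Fintype.ofFinite M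
  have := Fintype.ofFinite (M ⧸ Submodule.span (ZMod 2) {c})
  rw [Nat.card_eq_fintype_card, Nat.card_eq_fintype_card]
  exact Fintype.card_lt_of_surjective_not_injective _ hs hi

open Classical in
theorem D0_pr (ℓ n : ℕ) (f : ℕ → M) (c : M) :
    D0 ℓ n (fun i => pr c (f i)) = (D0 ℓ n f).image (pr c) := by
  ext x
  rw [mem_D0, mem_image]
  constructor
  · rintro ⟨i, j, h1, h2, h3, h4⟩
    exact ⟨f i + f j, mem_D0.2 ⟨i, j, h1, h2, h3, rfl⟩, h4⟩
  · rintro ⟨y, hy, hx⟩
    obtain ⟨i, j, h1, h2, h3, h4⟩ := mem_D0.1 hy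
    exact ⟨i, j, h1, h2, h3, by rw [← hx, ← h4, pr_add]⟩

/-- local injectivity -/
def LI {M : Type*} (ℓ n : ℕ) (f : ℕ → M) : Prop :=
  ∀ i j, i < j → j < n → j ≤ i + ℓ → f i ≠ f j

theorem LI_pr {ℓ n : ℕ} {f : ℕ → M} (h : LI ℓ n f) {c : M} (hc : c ∉ D0 ℓ n f) :
    LI ℓ n (fun i => pr c (f i)) := by
  intro i j h1 h2 h3 he
  rcases (pr_eq_iff _ _ _).1 he with h4 | h4
  · exact h i j h1 h2 h3 h4
  · exact hc (mem_D0.2 ⟨i, j, h1.le, h2, h3, h4⟩)

open Classical in
theorem vals_pr (n : ℕ) (f : ℕ → M) (c : M) :
    vals n (fun i => pr c (f i)) = (vals n f).image (pr c) := by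
  ext x
  rw [mem_vals, mem_image]
  constructor
  · rintro ⟨i, h1, h2⟩
    exact ⟨f i, mem_vals.2 ⟨i, h1, rfl⟩, h2⟩
  · rintro ⟨y, hy, hx⟩
    obtain ⟨i, h1, h2⟩ := mem_vals.1 hy
    exact ⟨i, h1, by rw [← hx, ← h2]⟩

open Classical in
theorem card_image_pr_ge (s : Finset M) (c : M) : s.card ≤ 2 * (s.image (pr c)).card := by
  have h := Finset.card_le_mul_card_image (f := pr c) s 2 (by
    intro b hb
    obtain ⟨x, hx, rfl⟩ := mem_image.1 hb
    have hsub : s.filter (fun y => pr c y = pr c x) ⊆ {x, x + c} := by
      intro y hy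
      rw [mem_filter] at hy
      rcases (pr_eq_iff _ _ _).1 hy.2 with h | h
      · simp [h]
      · have : y = x + c := by
          rw [← h, add_comm x, add_assoc, add_self, add_zero]
        simp [this]
    exact (card_le_card hsub).trans (card_le_two))
  exact h

open Classical in
/-- collapsing `ℓ` disjoint pairs -/
theorem collapse (D J : Finset M) (c : M) (h1 : J ⊆ D) (h2 : ∀ x ∈ J, x + c ∈ D)
    (h3 : ∀ x ∈ J, x + c ∉ J) : (D.image (pr c)).card + J.card ≤ D.card := by
  have hJ : (J.image (· + c)).card = J.card := card_image_of_injective _ (add_left_injective c)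
  have hsub : J.image (· + c) ⊆ D := by
    intro x hx
    obtain ⟨y, hy, rfl⟩ := mem_image.1 hx
    exact h2 y hy
  have him : D.image (pr c) ⊆ (D \ J.image (· + c)).image (pr c) := by
    intro x hx
    obtain ⟨y, hy, rfl⟩ := mem_image.1 hx
    by_cases hyJ : y ∈ J.image (· + c)
    · obtain ⟨z, hz, rfl⟩ := mem_image.1 hyJ
      refine mem_image.2 ⟨z, mem_sdiff.2 ⟨h1 hz, ?_⟩, ?_⟩
      · intro hz2
        obtain ⟨w, hw, hw2⟩ := mem_image.1 hz2
        apply h3 w hw
        rw [hw2]; exact hz
      · rw [pr_eq_iff]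
        right
        rw [← add_assoc, add_self, zero_add]
    · exact mem_image.2 ⟨y, mem_sdiff.2 ⟨hy, hyJ⟩, rfl⟩
  have h4 := card_le_card him
  have h5 : ((D \ J.image (· + c)).image (pr c)).card ≤ (D \ J.image (· + c)).card :=
    card_image_le
  have h6 := card_sdiff_add_card_eq_card hsub
  omega

open Classical in
theorem core (ℓ : ℕ) : ∀ (m : ℕ) (M : Type u) [AddCommGroup M] [Module (ZMod 2) M] [Finite M],
    Nat.card M ≤ m → ∀ (L n : ℕ) (f : ℕ → M), LI ℓ n f → 2 ^ L < 2 * (vals n f).card →
    tau ℓ L ≤ (D0 ℓ n f).card := by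
  intro m
  induction m with
  | zero =>
    intro M _ _ _ hm
    have := Nat.card_pos (α := M)
    omega
  | succ m ih =>
    intro M _ _ _ hm L n f hLI hL
    by_cases hall : ∀ x : M, x ∈ D0 ℓ n f
    · -- everything is a difference
      have := Fintype.ofFinite M
      have hu : D0 ℓ n f = univ := by ext x; simp [hall x]
      have hc : Fintype.card M = 2 ^ Module.finrank (ZMod 2) M := by
        rw [Module.card_eq_pow_finrank (K := ZMod 2) (V := M), ZMod.card]
      have hN : (vals n f).card ≤ Fintype.card M := card_le_univ _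
      rw [hu, card_univ, hc]
      rw [hc] at hN
      have h2 : 2 ^ L < 2 ^ (Module.finrank (ZMod 2) M + 1) := by
        rw [pow_succ]; omega
      have h3 := (Nat.pow_lt_pow_iff_right (by norm_num : 1 < 2)).1 h2
      exact (tau_le ℓ L).trans (Nat.pow_le_pow_right (by norm_num) (by omega))
    · push Not at hall
      obtain ⟨c0, hc0⟩ := hall
      have hNpos : 0 < (vals n f).card := by
        have : 0 < 2 ^ L := by positivity
        omega
      have hn : 0 < n := by
        obtain ⟨x, hx⟩ := card_pos.1 hNpos
        obtain ⟨i, hi, _⟩ := mem_vals.1 hx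
        omega
      have hzero : (0 : M) ∈ D0 ℓ n f := mem_D0.2 ⟨0, 0, le_rfl, hn, by omega, add_self _⟩
      by_cases hex : ∃ m, ∃ i, i + m < n ∧ f i + f (i + m) ∉ D0 ℓ n f
      · -- a shortest missing difference
        obtain ⟨i, hi, hc⟩ := Nat.find_spec hex
        have hmin := fun m' (h : m' < Nat.find hex) => Nat.find_min hex h
        set m0 := Nat.find hex with hm0
        set c := f i + f (i + m0) with hcdef
        have hbelow : ∀ a b, a < n → b < n → a ≤ b → b < a + m0 → f a + f b ∈ D0 ℓ n f := by
          intro a b _ hb hab hlt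
          by_contra hcon
          apply hmin (b - a) (by omega)
          refine ⟨a, by omega, ?_⟩
          have : a + (b - a) = b := by omega
          rwa [this]
        have hbelow' : ∀ a b, a < n → b < n → a < b + m0 → b < a + m0 →
            f a + f b ∈ D0 ℓ n f := by
          intro a b ha hb h1 h2
          rcases le_total a b with h | h
          · exact hbelow a b ha hb h h2
          · rw [add_comm]; exact hbelow b a hb ha h h1
        have hml : ℓ < m0 := by
          by_contra hcon
          exact hc (mem_D0.2 ⟨i, i + m0, by omega, hi, by omega, rfl⟩)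
        have hcne : c ≠ 0 := fun h => hc (h ▸ hzero)
        cases L with
        | zero =>
          have : tau ℓ 0 = 1 := by simp [tau]
          rw [this]
          exact card_pos.2 ⟨0, hzero⟩
        | succ L =>
          have hq : Finite (M ⧸ Submodule.span (ZMod 2) {c}) :=
            Finite.of_surjective (pr c) (Submodule.Quotient.mk_surjective _)
          have h1 := ih (M ⧸ Submodule.span (ZMod 2) {c})
            (by have := card_pr_lt (M := M) hcne; omega) L n (fun i => pr c (f i))
            (LI_pr hLI hc) (by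
              have h2 := card_image_pr_ge (vals n f) c
              rw [vals_pr]
              rw [pow_succ] at hL
              omega)
          rw [D0_pr] at h1
          -- the pairs
          set J : Finset M := (Finset.Icc (i + 1) (i + ℓ)).image (fun j => f i + f j) with hJ
          have hJcard : J.card = ℓ := by
            rw [hJ, card_image_of_injOn]
            · simp
            · intro a ha b hb hab
              have ha' : a ∈ Finset.Icc (i + 1) (i + ℓ) := ha
              have hb' : b ∈ Finset.Icc (i + 1) (i + ℓ) := hb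
              rw [Finset.mem_Icc] at ha' hb'
              have hab' : f a = f b := add_left_cancel hab
              rcases lt_trichotomy a b with h | h | h
              · exact absurd hab' (hLI a b h (by omega) (by omega))
              · exact h
              · exact absurd hab'.symm (hLI b a h (by omega) (by omega))
          have h2 := collapse (D0 ℓ n f) J c
            (by
              intro x hx
              obtain ⟨j, hj, rfl⟩ := mem_image.1 hx
              rw [Finset.mem_Icc] at hj
              exact hbelow' i j (by omega) (by omega) (by omega) (by omega))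
            (by
              intro x hx
              obtain ⟨j, hj, rfl⟩ := mem_image.1 hx
              rw [Finset.mem_Icc] at hj
              have : f i + f j + c = f j + f (i + m0) := by
                rw [hcdef]
                calc f i + f j + (f i + f (i + m0)) = (f i + f i) + (f j + f (i + m0)) := by abel
                  _ = f j + f (i + m0) := by rw [add_self, zero_add]
              rw [this]
              exact hbelow' j (i + m0) (by omega) (by omega) (by omega) (by omega))
            (by
              intro x hx hx2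
              obtain ⟨j, hj, rfl⟩ := mem_image.1 hx
              obtain ⟨k, hk, hk2⟩ := mem_image.1 hx2
              rw [Finset.mem_Icc] at hj hk
              apply hc
              have : c = f j + f k := by
                calc c = (f i + f j + c) + (f i + f j) := by
                      rw [add_comm (f i + f j + c), ← add_assoc, add_self, zero_add]
                  _ = (f i + f k) + (f i + f j) := by rw [← hk2]
                  _ = (f i + f i) + (f j + f k) := by abel
                  _ = f j + f k := by rw [add_self, zero_add]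
              rw [this]
              exact hbelow' j k (by omega) (by omega) (by omega) (by omega))
          rw [tau_succ]
          have h3 := min_le_left ℓ (2 ^ L)
          omega
      · -- all differences are there: project along any missing element
        push Not at hex
        have hcne : c0 ≠ 0 := fun h => hc0 (h ▸ hzero)
        have hq : Finite (M ⧸ Submodule.span (ZMod 2) {c0}) :=
          Finite.of_surjective (pr c0) (Submodule.Quotient.mk_surjective _)
        have hdiff : ∀ a b, a < n → b < n → f a + f b ∈ D0 ℓ n f := by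
          intro a b ha hb
          rcases le_total a b with h | h
          · have := hex (b - a) a (by omega)
            have h2 : a + (b - a) = b := by omega
            rwa [h2] at this
          · have := hex (a - b) b (by omega)
            have h2 : b + (a - b) = a := by omega
            rw [h2] at this
            rwa [add_comm]
        have hcard : ((vals n f).image (pr c0)).card = (vals n f).card := by
          apply card_image_of_injOn
          intro x hx y hy hxy
          obtain ⟨a, ha, rfl⟩ := mem_vals.1 hx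
          obtain ⟨b, hb, rfl⟩ := mem_vals.1 hy
          rcases (pr_eq_iff _ _ _).1 hxy with h | h
          · exact h
          · exact absurd (h ▸ hdiff a b ha hb) hc0
        have h1 := ih (M ⧸ Submodule.span (ZMod 2) {c0})
          (by have := card_pr_lt (M := M) hcne; omega) L n (fun i => pr c0 (f i))
          (LI_pr hLI hc0) (by rw [vals_pr, hcard]; exact hL)
        rw [D0_pr] at h1
        exact h1.trans card_image_le

end Core

/-! ### From a colouring to a potential -/

section Potential

variable {V : Type*} {α : Type*} [DecidableEq α]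

/-- the type of used colours -/
abbrev Used (G : SimpleGraph V) (c : Sym2 V → α) : Type _ := ↥(c '' G.edgeSet)

open Classical in
/-- the unit vector of the colour of an edge -/
noncomputable def vec (G : SimpleGraph V) (c : Sym2 V → α) (e : Sym2 V) :
    Used G c → ZMod 2 :=
  fun a => if c e = a.1 then 1 else 0

/-- the parity vector of a walk -/
noncomputable def par (G : SimpleGraph V) (c : Sym2 V → α) {x y : V} (p : G.Walk x y) :
    Used G c → ZMod 2 :=
  (p.edges.map (vec G c)).sum

theorem par_nil (G : SimpleGraph V) (c : Sym2 V → α) (x : V) :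
    par G c (SimpleGraph.Walk.nil : G.Walk x x) = 0 := by
  simp [par]

theorem par_append (G : SimpleGraph V) (c : Sym2 V → α) {x y z : V} (p : G.Walk x y)
    (q : G.Walk y z) : par G c (p.append q) = par G c p + par G c q := by
  simp [par, SimpleGraph.Walk.edges_append]

theorem par_reverse (G : SimpleGraph V) (c : Sym2 V → α) {x y : V} (p : G.Walk x y) :
    par G c p.reverse = par G c p := by
  simp [par, SimpleGraph.Walk.edges_reverse, List.map_reverse, List.sum_reverse]

theorem par_apply (G : SimpleGraph V) (c : Sym2 V → α) {x y : V} (p : G.Walk x y)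
    (a : Used G c) : par G c p a = ((p.edges.map c).count a.1 : ℕ) := by
  unfold par
  induction p.edges with
  | nil => simp
  | cons e l ih =>
    simp only [List.map_cons, List.sum_cons, Pi.add_apply, List.count_cons]
    rw [ih]
    unfold vec
    by_cases h : c e = a.1
    · simp [h, add_comm]
    · simp [h]

theorem even_of_par (G : SimpleGraph V) (c : Sym2 V → α) {x y : V} (p : G.Walk x y)
    (h : par G c p = 0) (a : α) : Even ((p.edges.map c).count a) := by
  by_cases ha : a ∈ c '' G.edgeSet
  · have h1 := par_apply G c p ⟨a, ha⟩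
    rw [h] at h1
    have h2 : (((p.edges.map c).count a : ℕ) : ZMod 2) = 0 := h1.symm
    exact (ZMod.natCast_eq_zero_iff_even).1 h2
  · have : (p.edges.map c).count a = 0 := by
      rw [List.count_eq_zero]
      intro hmem
      obtain ⟨e, he, hea⟩ := List.mem_map.1 hmem
      exact ha ⟨e, p.edges_subset_edgeSet he, hea⟩
    rw [this]; exact ⟨0, rfl⟩

/-- the parity vectors of closed walks at `r` -/
noncomputable def cyc (G : SimpleGraph V) (c : Sym2 V → α) (r : V) :
    Submodule (ZMod 2) (Used G c → ZMod 2) where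
  carrier := {w | ∃ p : G.Walk r r, par G c p = w}
  add_mem' := by
    rintro a b ⟨p, rfl⟩ ⟨q, rfl⟩
    exact ⟨p.append q, par_append G c p q⟩
  zero_mem' := ⟨SimpleGraph.Walk.nil, par_nil G c r⟩
  smul_mem' := by
    rintro a w ⟨p, rfl⟩
    rcases zmod2 a with rfl | rfl
    · exact ⟨SimpleGraph.Walk.nil, by rw [par_nil, zero_smul]⟩
    · exact ⟨p, by rw [one_smul]⟩

theorem par_cons (G : SimpleGraph V) (c : Sym2 V → α) {x y z : V} (h : G.Adj x y)
    (p : G.Walk y z) : par G c (SimpleGraph.Walk.cons h p) = vec G c s(x, y) + par G c p := by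
  simp [par]

/-- the potential of a vertex -/
noncomputable def pot (G : SimpleGraph V) (c : Sym2 V → α) (r : V) (hr : ∀ v, G.Reachable r v)
    (v : V) : (Used G c → ZMod 2) ⧸ cyc G c r :=
  Submodule.Quotient.mk (par G c (hr v).some)

theorem pot_injective (G : SimpleGraph V) (c : Sym2 V → α) (hc : IsSpec G c) (r : V)
    (hr : ∀ v, G.Reachable r v) : Function.Injective (pot G c r hr) := by
  intro x y hxy
  by_contra hne
  unfold pot at hxy
  rw [Submodule.Quotient.eq, ZModModule.sub_eq_add] at hxy
  obtain ⟨q, hq⟩ := hxy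
  refine hc x y (((hr x).some.reverse.append q).append (hr y).some) hne ?_
  apply even_of_par
  rw [par_append, par_append, par_reverse, hq]
  calc par G c (hr x).some + (par G c (hr x).some + par G c (hr y).some) + par G c (hr y).some
      = (par G c (hr x).some + par G c (hr x).some) +
        (par G c (hr y).some + par G c (hr y).some) := by abel
    _ = 0 := by rw [ZModModule.add_self, ZModModule.add_self, add_zero]

theorem pot_edge (G : SimpleGraph V) (c : Sym2 V → α) (r : V)
    (hr : ∀ v, G.Reachable r v) {x y : V} (h : G.Adj x y) :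
    pot G c r hr x + pot G c r hr y = Submodule.Quotient.mk (vec G c s(x, y)) := by
  unfold pot
  rw [← Submodule.Quotient.mk_add, Submodule.Quotient.eq, ZModModule.sub_eq_add]
  refine ⟨(hr x).some.append (SimpleGraph.Walk.cons h (hr y).some.reverse), ?_⟩
  rw [par_append, par_cons, par_reverse]
  abel

end Potential

/-! ### The lower bound -/

theorem pathPower_adj {n ℓ : ℕ} {i j : Fin n} :
    (pathPower n ℓ).Adj i j ↔ i ≠ j ∧ (i : ℕ) ≤ j + ℓ ∧ (j : ℕ) ≤ i + ℓ := by
  show (1 ≤ |(i : ℤ) - (j : ℤ)| ∧ |(i : ℤ) - (j : ℤ)| ≤ ℓ) ↔ _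
  rw [abs_le]
  constructor
  · rintro ⟨h1, h2⟩
    refine ⟨?_, by omega, by omega⟩
    rintro rfl
    simp at h1
  · rintro ⟨h1, h2, h3⟩
    refine ⟨?_, by omega, by omega⟩
    have : (i : ℕ) ≠ j := fun h => h1 (Fin.ext h)
    rcases lt_or_gt_of_ne this with h | h
    · rw [abs_of_neg (by omega)]; omega
    · rw [abs_of_pos (by omega)]; omega

theorem reach {n ℓ : ℕ} (hn : 1 ≤ n) (hℓ : 1 ≤ ℓ) :
    ∀ v : Fin n, (pathPower n ℓ).Reachable ⟨0, hn⟩ v := by
  rintro ⟨k, hk⟩
  induction k with
  | zero => exact SimpleGraph.Reachable.refl _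
  | succ k ih =>
    refine (ih (by omega)).trans (SimpleGraph.Adj.reachable ?_)
    rw [pathPower_adj]
    refine ⟨?_, ?_, ?_⟩
    · intro h
      have := congrArg Fin.val h
      simp at this
    · simp only; omega
    · simp only; omega

open Classical in
theorem lower {α : Type*} [DecidableEq α] (n ℓ : ℕ) (hn : 1 ≤ n) (hℓ : 1 ≤ ℓ)
    (c : Sym2 (Fin n) → α) (hc : IsSpec (pathPower n ℓ) c) :
    tau ℓ (Nat.clog 2 n) ≤ numColours (pathPower n ℓ) c + 1 := by
  set G := pathPower n ℓ with hG
  have hfin : (c '' G.edgeSet).Finite := Set.toFinite _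
  have : Finite (Used G c) := hfin.to_subtype
  set M := (Used G c → ZMod 2) ⧸ cyc G c ⟨0, hn⟩ with hM
  have : Finite M := Finite.of_surjective (Submodule.Quotient.mk (p := cyc G c ⟨0, hn⟩))
    (Submodule.Quotient.mk_surjective _)
  set f : ℕ → M := fun i => if h : i < n then pot G c ⟨0, hn⟩ (reach hn hℓ) ⟨i, h⟩ else 0 with hf
  have hfi : ∀ (i : ℕ) (h : i < n), f i = pot G c ⟨0, hn⟩ (reach hn hℓ) ⟨i, h⟩ := by
    intro i h
    simp [hf, h]
  have hinj : ∀ i j, i < n → j < n → f i = f j → i = j := by
    intro i j hi hj he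
    rw [hfi i hi, hfi j hj] at he
    have := pot_injective G c hc _ _ he
    exact congrArg Fin.val this
  have hLI : LI ℓ n f := by
    intro i j h1 h2 _ he
    exact absurd (hinj i j (by omega) h2 he) (by omega)
  have hcard : (vals n f).card = n := by
    unfold vals
    rw [card_image_of_injOn, card_range]
    intro a ha b hb hab
    exact hinj a b (by simpa using ha) (by simpa using hb) hab
  have hL : 2 ^ Nat.clog 2 n < 2 * (vals n f).card := by
    rw [hcard]
    rcases Nat.lt_or_ge 1 n with h | h
    · have h1 := Nat.pow_pred_clog_lt_self (by norm_num : 1 < 2) h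
      have h2 : 0 < Nat.clog 2 n := Nat.clog_pos (by norm_num) h
      obtain ⟨k, hk⟩ : ∃ k, Nat.clog 2 n = k + 1 := ⟨Nat.clog 2 n - 1, by omega⟩
      rw [hk] at h1 ⊢
      simp only [Nat.pred_eq_sub_one, Nat.add_sub_cancel] at h1
      rw [pow_succ]; omega
    · have : n = 1 := by omega
      subst this
      simp
  have hcore := core ℓ (Nat.card M) M le_rfl (Nat.clog 2 n) n f hLI hL
  refine hcore.trans ?_
  have := Fintype.ofFinite (Used G c)
  have hsub : D0 ℓ n f ⊆ insert 0 ((univ : Finset (Used G c)).image
      (fun a => (Submodule.Quotient.mk (Pi.single a 1) : M))) := by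
    intro x hx
    obtain ⟨i, j, h1, h2, h3, rfl⟩ := mem_D0.1 hx
    rcases Nat.eq_or_lt_of_le h1 with h | h
    · subst h
      rw [add_self]
      exact mem_insert_self _ _
    · apply mem_insert_of_mem
      have hi : i < n := by omega
      have hadj : G.Adj ⟨i, hi⟩ ⟨j, h2⟩ := by
        rw [hG, pathPower_adj]
        refine ⟨?_, ?_, ?_⟩
        · intro he
          have := congrArg Fin.val he
          simp at this
          omega
        · simp only; omega
        · simp only; omega
      rw [hfi i hi, hfi j h2, pot_edge G c _ _ hadj]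
      have hmem : c s(⟨i, hi⟩, ⟨j, h2⟩) ∈ c '' G.edgeSet := ⟨_, hadj, rfl⟩
      refine mem_image.2 ⟨⟨_, hmem⟩, mem_univ _, ?_⟩
      congr 1
      funext a
      unfold vec
      rw [Pi.single_apply]
      by_cases ha : a = ⟨_, hmem⟩
      · rw [if_pos ha, if_pos (by rw [ha])]
      · rw [if_neg ha, if_neg (fun h' => ha (Subtype.ext h'.symm))]
  refine (card_le_card hsub).trans ((card_insert_le _ _).trans ?_)
  have h1 : ((univ : Finset (Used G c)).image
      (fun a => (Submodule.Quotient.mk (Pi.single a 1) : M))).card ≤ Fintype.card (Used G c) :=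
    card_image_le.trans (by rw [card_univ])
  have h2 : numColours G c = Fintype.card (Used G c) := by
    unfold numColours
    rw [← Nat.card_coe_set_eq, Nat.card_eq_fintype_card]
  omega

/-! ### The Gray code -/

/-- the Gray code vector of `i` -/
noncomputable def gray (i : ℕ) : ℕ →₀ ZMod 2 := ∑ t ∈ Finset.Ioc 0 i, gen t

theorem fadd_self (x : ℕ →₀ ZMod 2) : x + x = 0 := ZModModule.add_self x

theorem phi_eq (n : ℕ) (i j : Fin n) : phi n s(i, j) = gray i + gray j := by
  have key : ∀ a b : ℕ, a ≤ b → ∑ t ∈ Finset.Ioc a b, gen t = gray a + gray b := by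
    intro a b hab
    have h := Finset.sum_Ioc_consecutive gen (Nat.zero_le a) hab
    unfold gray
    rw [← h, ← add_assoc, fadd_self, zero_add]
  show ∑ t ∈ Finset.Ioc (min (i : ℕ) (j : ℕ)) (max (i : ℕ) (j : ℕ)), gen t = _
  rcases le_total (i : ℕ) (j : ℕ) with h | h
  · rw [min_eq_left h, max_eq_right h]; exact key _ _ h
  · rw [min_eq_right h, max_eq_left h, key _ _ h, add_comm]

theorem gray_succ (i : ℕ) : gray (i + 1) = gray i + gen (i + 1) := by
  unfold gray
  rw [Finset.sum_Ioc_succ_top (Nat.zero_le i)]

theorem gray_zero : gray 0 = 0 := by simp [gray]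

/-- the shift of coordinates -/
noncomputable def sh : (ℕ →₀ ZMod 2) →+ (ℕ →₀ ZMod 2) :=
  Finsupp.mapDomain.addMonoidHom (· + 1)

theorem gen_odd (i : ℕ) : gen (2 * i + 1) = Finsupp.single 1 1 := by
  unfold gen
  rw [padicValNat.eq_zero_of_not_dvd (by omega)]

theorem gen_even (i : ℕ) : gen (2 * (i + 1)) = sh (gen (i + 1)) := by
  unfold gen sh
  rw [padicValNat.mul (by norm_num) (by omega), padicValNat.self (by norm_num)]
  simp [Finsupp.mapDomain.addMonoidHom, Finsupp.mapDomain_single]
  congr 1
  ring

theorem gray_rec (m : ℕ) :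
    gray m = Finsupp.single 1 (((m + 1) / 2 : ℕ) : ZMod 2) + sh (gray (m / 2)) := by
  induction m with
  | zero => simp [gray_zero]
  | succ m ih =>
    rw [gray_succ, ih]
    rcases Nat.even_or_odd' m with ⟨i, rfl | rfl⟩
    · rw [gen_odd]
      have h1 : (2 * i + 1) / 2 = i := by omega
      have h2 : (2 * i) / 2 = i := by omega
      have h3 : (2 * i + 1 + 1) / 2 = i + 1 := by omega
      rw [h1, h2, h3]
      push_cast
      rw [Finsupp.single_add]
      abel
    · have h0 : 2 * i + 1 + 1 = 2 * (i + 1) := by ring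
      have h1 : (2 * (i + 1)) / 2 = i + 1 := by omega
      have h2 : (2 * i + 1) / 2 = i := by omega
      have h3 : (2 * (i + 1) + 1) / 2 = i + 1 := by omega
      rw [h0, h1, h2, h3, gen_even, gray_succ, map_add]
      abel

theorem xor_div_two (a b : ℕ) : (a ^^^ b) / 2 = (a / 2) ^^^ (b / 2) := by
  simp only [← Nat.shiftRight_one]
  exact Nat.shiftRight_xor_distrib

theorem xor_mod_two (a b : ℕ) : (a ^^^ b) % 2 = (a + b) % 2 := Nat.xor_mod_two_eq

theorem gray_xor : ∀ (s a b : ℕ), a + b ≤ s → gray (a ^^^ b) = gray a + gray b := by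
  intro s
  induction s using Nat.strong_induction_on with
  | _ s ih =>
    intro a b hab
    rcases Nat.eq_zero_or_pos (a + b) with h | h
    · have ha : a = 0 := by omega
      have hb : b = 0 := by omega
      subst ha; subst hb
      simp [gray_zero]
    · rw [gray_rec (a ^^^ b), gray_rec a, gray_rec b, xor_div_two,
        ih (a / 2 + b / 2) (by omega) (a / 2) (b / 2) le_rfl, map_add]
      have h1 : ((((a ^^^ b) + 1) / 2 : ℕ) : ZMod 2) =
          (((a + 1) / 2 : ℕ) : ZMod 2) + (((b + 1) / 2 : ℕ) : ZMod 2) := by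
        rw [← Nat.cast_add, ZMod.natCast_eq_natCast_iff]
        have e1 := xor_div_two a b
        have e2 := xor_mod_two a b
        have e3 := xor_mod_two (a / 2) (b / 2)
        unfold Nat.ModEq
        omega
      rw [h1, Finsupp.single_add]
      abel

theorem gray_apply_zero (x : ℕ) : gray x 0 = 0 := by
  unfold gray
  rw [Finsupp.finsetSum_apply]
  apply Finset.sum_eq_zero
  intro t _
  unfold gen
  rw [Finsupp.single_apply, if_neg (by omega)]

theorem gray_eq_zero : ∀ x : ℕ, gray x = 0 → x = 0 := by
  intro x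
  induction x using Nat.strong_induction_on with
  | _ x ih =>
    intro h
    by_contra hx
    have h1 : gray (x / 2) = 0 := by
      ext k
      rcases Nat.eq_zero_or_pos k with rfl | hk
      · rw [gray_apply_zero]; rfl
      · have h2 := congrArg (fun w : ℕ →₀ ZMod 2 => w (k + 1)) h
        simp only [Finsupp.coe_zero, Pi.zero_apply] at h2
        rw [gray_rec, Finsupp.add_apply, Finsupp.single_apply, if_neg (by omega), zero_add] at h2
        unfold sh at h2
        rw [Finsupp.mapDomain.addMonoidHom] at h2
        simp only [AddMonoidHom.coe_mk, ZeroHom.coe_mk] at h2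
        rw [Finsupp.mapDomain_apply (add_left_injective 1)] at h2
        rw [h2]; rfl
    have h3 := ih (x / 2) (by omega) h1
    have h4 : x = 1 := by omega
    subst h4
    rw [gray_rec] at h
    have h5 := congrArg (fun w : ℕ →₀ ZMod 2 => w 1) h
    simp [gray_zero] at h5

theorem gray_injective {a b : ℕ} (h : gray a = gray b) : a = b := by
  have h1 : gray (a ^^^ b) = 0 := by
    rw [gray_xor _ a b le_rfl, h, fadd_self]
  exact Nat.xor_eq_zero_iff.1 (gray_eq_zero _ h1)

theorem phi_walk (n ℓ : ℕ) {x y : Fin n} (p : (pathPower n ℓ).Walk x y) :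
    (p.edges.map (phi n)).sum = gray x + gray y := by
  induction p with
  | nil => simp [fadd_self]
  | cons h p ih =>
    rw [SimpleGraph.Walk.edges_cons, List.map_cons, List.sum_cons, ih, phi_eq]
    rename_i a b c
    calc gray a + gray b + (gray b + gray c) = gray a + gray c + (gray b + gray b) := by abel
      _ = gray a + gray c := by rw [fadd_self, add_zero]

theorem phi_spec (n ℓ : ℕ) : IsSpec (pathPower n ℓ) (phi n) := by
  intro x y p hxy hev
  apply hxy
  have h1 := phi_walk n ℓ p
  rw [Finset.sum_list_count] at h1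
  have h2 : ∑ m ∈ (p.edges.map (phi n)).toFinset, (p.edges.map (phi n)).count m • m = 0 := by
    apply Finset.sum_eq_zero
    intro m _
    obtain ⟨k, hk⟩ := hev m
    rw [hk, add_smul, fadd_self]
  rw [h2] at h1
  have h3 : gray x = gray y := by
    calc gray x = gray x + (gray y + gray y) := by rw [fadd_self, add_zero]
      _ = (gray x + gray y) + gray y := by abel
      _ = gray y := by rw [← h1, zero_add]
  exact Fin.ext (gray_injective h3)

theorem xor_top : ∀ (j i : ℕ), i < j →
    ∃ κ, 2 ^ κ ≤ i ^^^ j ∧ i ^^^ j < 2 ^ (κ + 1) ∧ 2 ^ (κ + 1) ≤ (i ^^^ j) + (j - i) := by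
  intro j
  induction j using Nat.strong_induction_on with
  | _ j ih =>
    intro i hij
    have e1 := xor_div_two i j
    have e2 := xor_mod_two i j
    rcases Nat.lt_or_ge (i / 2) (j / 2) with h | h
    · obtain ⟨κ, h1, h2, h3⟩ := ih (j / 2) (by omega) (i / 2) h
      rw [← e1] at h1 h2 h3
      refine ⟨κ + 1, ?_, ?_, ?_⟩
      · rw [pow_succ]; omega
      · rw [pow_succ 2 (κ + 1)]; omega
      · rw [pow_succ 2 (κ + 1)]; omega
    · have h4 : i / 2 = j / 2 := by omega
      rw [h4, Nat.xor_self] at e1
      exact ⟨0, by omega, by omega, by omega⟩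

open Classical in
theorem phi_colours (n ℓ : ℕ) :
    numColours (pathPower n ℓ) (phi n) ≤ ∑ k ∈ range (Nat.clog 2 n), min ℓ (2 ^ k) := by
  set Z : Finset ℕ := (range (Nat.clog 2 n)).biUnion
    (fun k => Finset.Ico (max (2 ^ k) (2 ^ (k + 1) - ℓ)) (2 ^ (k + 1))) with hZ
  have hsub : phi n '' (pathPower n ℓ).edgeSet ⊆ ((Z.image gray : Finset _) : Set (ℕ →₀ ZMod 2)) := by
    have key : ∀ i j : Fin n, (i : ℕ) < j → (j : ℕ) ≤ i + ℓ → phi n s(i, j) ∈ Z.image gray := by
      intro i j h1 h2
      rw [phi_eq, ← gray_xor _ _ _ le_rfl]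
      refine mem_image.2 ⟨_, ?_, rfl⟩
      obtain ⟨κ, h3, h4, h5⟩ := xor_top j i h1
      have h6 : n ≤ 2 ^ Nat.clog 2 n := Nat.le_pow_clog (by norm_num) n
      have h7 : (i : ℕ) ^^^ (j : ℕ) < 2 ^ Nat.clog 2 n :=
        Nat.xor_lt_two_pow (by omega) (by omega)
      rw [hZ, mem_biUnion]
      refine ⟨κ, mem_range.2 ?_, ?_⟩
      · have : 2 ^ κ < 2 ^ Nat.clog 2 n := by omega
        exact (Nat.pow_lt_pow_iff_right (by norm_num)).1 this
      · rw [Finset.mem_Ico]
        exact ⟨max_le h3 (by omega), h4⟩
    rintro x ⟨e, he, rfl⟩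
    induction e using Sym2.ind with
    | _ i j =>
      rw [SimpleGraph.mem_edgeSet, pathPower_adj] at he
      obtain ⟨h1, h2, h3⟩ := he
      have : (i : ℕ) ≠ j := fun h => h1 (Fin.ext h)
      rcases lt_or_gt_of_ne this with h | h
      · exact key i j h h3
      · rw [Sym2.eq_swap]; exact key j i h h2
  unfold numColours
  refine (Set.ncard_le_ncard hsub (Finset.finite_toSet _)).trans ?_
  rw [Set.ncard_coe_finset]
  refine card_image_le.trans (card_biUnion_le.trans ?_)
  apply sum_le_sum
  intro k _
  rw [Nat.card_Ico, pow_succ]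
  omega

theorem sum_shift (ℓ L : ℕ) :
    ∑ k ∈ Finset.Icc 1 L, min ℓ (2 ^ (k - 1)) = ∑ k ∈ range L, min ℓ (2 ^ k) := by
  induction L with
  | zero => simp
  | succ L ih =>
    rw [Finset.sum_Icc_succ_top (by omega), ih, sum_range_succ]
    simp

theorem low {α : Type*} [DecidableEq α] (n ℓ : ℕ) (hn : 1 ≤ n) (hℓ : 1 ≤ ℓ)
    (c : Sym2 (Fin n) → α) (hc : IsSpec (pathPower n ℓ) c) :
    ∑ k ∈ range (Nat.clog 2 n), min ℓ (2 ^ k) ≤ numColours (pathPower n ℓ) c := by
  have := lower n ℓ hn hℓ c hc
  unfold tau at this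
  omega

/-- For all `n, ℓ ≥ 1` the Gray-code colouring `φ` is an optimal spec of `P_n^ℓ`, and
`p̂(P_n^ℓ) = ∑_{k = 1}^{⌈lg n⌉} min {ℓ, 2^(k-1)}`. -/
theorem result (n ℓ : ℕ) (hn : 1 ≤ n) (hℓ : 1 ≤ ℓ) :
    IsSpec (pathPower n ℓ) (phi n) ∧
    (∀ (α : Type u) [DecidableEq α] (c : Sym2 (Fin n) → α), IsSpec (pathPower n ℓ) c →
      numColours (pathPower n ℓ) (phi n) ≤ numColours (pathPower n ℓ) c) ∧
    numColours (pathPower n ℓ) (phi n) =
      ∑ k ∈ Finset.Icc 1 (Nat.clog 2 n), min ℓ (2 ^ (k - 1)) ∧
    specNumber (pathPower n ℓ) = ∑ k ∈ Finset.Icc 1 (Nat.clog 2 n), min ℓ (2 ^ (k - 1)) := by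
  have hup := phi_colours n ℓ
  have heq : numColours (pathPower n ℓ) (phi n) = ∑ k ∈ range (Nat.clog 2 n), min ℓ (2 ^ k) :=
    le_antisymm hup (low n ℓ hn hℓ (phi n) (phi_spec n ℓ))
  refine ⟨phi_spec n ℓ, fun α _ c hc => hup.trans (low n ℓ hn hℓ c hc), ?_, ?_⟩
  · rw [sum_shift]; exact heq
  · rw [sum_shift]
    obtain ⟨ι, hι⟩ := Countable.exists_injective_nat (ℕ →₀ ZMod 2)
    apply le_antisymm
    · apply Nat.sInf_le
      refine ⟨fun e => ι (phi n e), ?_, ?_⟩
      · intro x y p hxy hev
        refine phi_spec n ℓ x y p hxy (fun a => ?_)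
        have h1 := hev (ι a)
        have h2 : (p.edges.map (fun e => ι (phi n e))) = (p.edges.map (phi n)).map ι := by
          rw [List.map_map]; rfl
        rw [h2, List.count_map_of_injective _ _ hι] at h1
        exact h1
      · rw [← heq]
        unfold numColours
        have h2 : (fun e => ι (phi n e)) '' (pathPower n ℓ).edgeSet =
            ι '' (phi n '' (pathPower n ℓ).edgeSet) := by
          rw [Set.image_image]
        rw [h2, Set.ncard_image_of_injective _ hι]
    · apply le_csInf
      · exact ⟨_, fun e => ι (phi n e), by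
          intro x y p hxy hev
          refine phi_spec n ℓ x y p hxy (fun a => ?_)
          have h1 := hev (ι a)
          have h2 : (p.edges.map (fun e => ι (phi n e))) = (p.edges.map (phi n)).map ι := by
            rw [List.map_map]; rfl
          rw [h2, List.count_map_of_injective _ _ hι] at h1
          exact h1, rfl⟩
      · rintro m ⟨c, hc, rfl⟩
        exact low n ℓ hn hℓ c hc

end Pool.Agent.Results.MP_c1651f_co.PathPowerSpec
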